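import Mathlib
import Pool.Agent.Helper579.CayInf.Defs
import Pool.Agent.Helper579.CayInf.P_classification
import Pool.Agent.Y100.CAY.Dense
import Pool.Agent.Y100.CAY.Ham

/-! # MP_a61cf6_co: dense graphs are avoidable

Every group, finite or infinite, has a Cayley graph in which any `n` vertices span at most
`n log₂ n` edges.  So every graph containing a finite graph with more edges is avoidable, while for
every `k` there is an unavoidable graph with `n = 3^k` vertices and `n log₃ n` edges.
-/

set_option autoImplicit false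

universe u v w

namespace Pool.Agent.Results.MP_a61cf6_co.EdgeDensity

open CayInf Pool.Agent.Y100.CAY

/-- `Y` is avoidable: every group has a generating set `H`, `1 ∉ H`, such that the Cayley graph
`X(G,H)` does not contain `Y` as a subgraph. -/
def Avoidable {W : Type v} (Y : SimpleGraph W) : Prop :=
  ∀ (G : Type u) [Group G], ∃ H : Set G, (1 : G) ∉ H ∧ Subgroup.closure H = ⊤ ∧
    ¬ Y.IsContained (cay G H)

/-- every division of the vertices of `Y` into two nonempty parts leaves some vertex with at least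
three neighbours in the other part -/
def NoThinCut {W : Type v} (Y : SimpleGraph W) : Prop :=
  ∀ A : Set W, A.Nonempty → A ≠ Set.univ →
    ∃ x : W, 3 ≤ {y : W | Y.Adj x y ∧ ¬ (y ∈ A ↔ x ∈ A)}.encard

theorem sparse (G : Type u) [Group G] : ∃ H : Set G, (1 : G) ∉ H ∧ Subgroup.closure H = ⊤ ∧
    ∀ F : Finset G, 2 ≤ F.card → Cuttable (cay G H) F := by
  obtain ⟨_, _⟩ := exists_wellOrder G
  exact ⟨gens G, fun h => h (one_mem _), wo_gen, fun F hF => cuttable F hF⟩

theorem cut_of_contained {V : Type u} (X : SimpleGraph V)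
    (hX : ∀ F : Finset V, 2 ≤ F.card → Cuttable X F) {W : Type v} [Fintype W]
    (hW : 2 ≤ Fintype.card W) (Y : SimpleGraph W) (hY : Y.IsContained X) : ¬ NoThinCut Y := by
  classical
  obtain ⟨f⟩ := hY
  intro hno
  have hc : (Finset.univ.image f).card = Fintype.card W := by
    rw [Finset.card_image_of_injective (f := (⇑f)) _ f.injective, Finset.card_univ]
  obtain ⟨A, ⟨x1, hx1, hx1'⟩, ⟨x2, hx2, hx2'⟩, hA⟩ := hX (Finset.univ.image f) (by omega)
  obtain ⟨z1, -, rfl⟩ := Finset.mem_image.mp hx1
  obtain ⟨z2, -, rfl⟩ := Finset.mem_image.mp hx2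
  obtain ⟨x, hx⟩ := hno (f ⁻¹' A) ⟨z1, hx1'⟩ (fun h => by
    have h1 : z2 ∈ f ⁻¹' A := by
      rw [h]
      exact Set.mem_univ _
    exact hx2' h1)
  have h2 := hA (f x) (Finset.mem_image_of_mem _ (Finset.mem_univ _))
  have h3 : (f '' {y : W | Y.Adj x y ∧ ¬ (y ∈ f ⁻¹' A ↔ x ∈ f ⁻¹' A)}) ⊆
      {y : V | y ∈ Finset.univ.image f ∧ X.Adj (f x) y ∧ ¬ (y ∈ A ↔ f x ∈ A)} := by
    rintro _ ⟨y, hy, rfl⟩
    exact ⟨Finset.mem_image_of_mem _ (Finset.mem_univ _), f.toHom.map_adj hy.1, hy.2⟩
  have h4 := Set.encard_le_encard h3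
  rw [Function.Injective.encard_image (f := (⇑f)) f.injective] at h4
  have h5 : (3 : ℕ∞) ≤ 2 := (hx.trans h4).trans h2
  exact absurd h5 (by decide)

/-- **Main theorem.**

(1) Every group `G` (finite or infinite) has a generating set `H`, `1 ∉ H`, such that every finite
graph `Y` contained in the Cayley graph `X(G,H)` with `n ≥ 1` vertices has at most `n log₂ n`
edges, and, if `n ≥ 2`, its vertices can be divided into two nonempty parts such that no vertex has
more than two neighbours in the other part.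

(2) Hence every graph containing a finite graph with `n ≥ 1` vertices and more than `n log₂ n` edges is
avoidable, and so is every graph containing a finite graph with at least two vertices which cannot
be divided like that.

(3) For every `k` there is a graph with `n = 3 ^ k` vertices and `k * n = n log₃ n` edges which is
unavoidable together with all its subgraphs, by the same group.

(4) The complete bipartite graph `K_{S,T}`, `1 ≤ |S| ≤ |T|`, is avoidable iff `|S| ≥ 3` and
`|T| ≥ 5`. -/
theorem result :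
    (∀ (G : Type u) [Group G], ∃ H : Set G, (1 : G) ∉ H ∧ Subgroup.closure H = ⊤ ∧
      ∀ (W : Type v) [Fintype W] [Nonempty W] (Y : SimpleGraph W), Y.IsContained (cay G H) →
        (Y.edgeSet.ncard : ℝ) ≤ (Fintype.card W : ℝ) * Real.logb 2 (Fintype.card W) ∧
        (2 ≤ Fintype.card W → ¬ NoThinCut Y)) ∧
    (∀ (W : Type v) [Fintype W] [Nonempty W] (Y : SimpleGraph W) (Z : Type w) (X : SimpleGraph Z),
      Y.IsContained X →
        (Fintype.card W : ℝ) * Real.logb 2 (Fintype.card W) < (Y.edgeSet.ncard : ℝ) ∨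
          (2 ≤ Fintype.card W ∧ NoThinCut Y) →
        Avoidable.{u} X) ∧
    (∀ k : ℕ, ∃ Y : SimpleGraph (Fin k → ZMod 3), Fintype.card (Fin k → ZMod 3) = 3 ^ k ∧
      Y.edgeSet.ncard = k * 3 ^ k ∧
      ∃ (G : Type u) (_ : Group G), ∀ H : Set G, (1 : G) ∉ H → Subgroup.closure H = ⊤ →
        ∀ (W : Type w) (X : SimpleGraph W), X.IsContained Y → X.IsContained (cay G H)) ∧
    (∀ (S T : Type u) [Nonempty S], Cardinal.mk S ≤ Cardinal.mk T →
      (Avoidable.{u} (completeBipartiteGraph S T) ↔
        (3 ≤ Cardinal.mk S ∧ 5 ≤ Cardinal.mk T))) := by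
  refine ⟨?_, ?_, ?_, fun S T _ hST => classification S T hST⟩
  · intro G _
    obtain ⟨H, h1, h2, h3⟩ := sparse G
    exact ⟨H, h1, h2, fun W _ _ Y hY => ⟨edges_le _ h3 Y hY, fun hW => cut_of_contained _ h3 hW Y hY⟩⟩
  · intro W _ _ Y Z X hYX hcase G _
    obtain ⟨H, h1, h2, h3⟩ := sparse G
    refine ⟨H, h1, h2, fun hX => ?_⟩
    rcases hcase with h | ⟨h4, h5⟩
    · exact absurd (edges_le _ h3 Y (hYX.trans hX)) (not_le.mpr h)
    · exact cut_of_contained _ h3 h4 Y (hYX.trans hX) h5
  · intro k
    refine ⟨ham k, ?_, ham_edges k, ?_⟩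
    · rw [Fintype.card_fun, Fintype.card_fin, ZMod.card]
    · obtain ⟨G, hG, h1⟩ := ham_unavoidable.{u} k
      exact ⟨G, hG, fun H _ hH W X hX => hX.trans (h1 H hH)⟩

end Pool.Agent.Results.MP_a61cf6_co.EdgeDensity
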